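import Pool.Agent.Lib.MP_c0e0de_co.AF.Main3

/-!
# Affine designs with a commutative automorphism group which is transitive on the points

The number `m` of blocks in a parallel class is a prime power, the number of points is a power of
`m`, and the design is embeddable.
-/

namespace Pool.Agent.Results.MP_c0e0de_co.AbelianTransitive

open Pool.Agent.AF

theorem result {P Bl : Type} [Finite P] [Finite Bl] (I : P → Bl → Prop)
    (par : Bl → Bl → Prop) (k lam μ : ℕ) (hA : IsAffine I par k lam μ) (m : ℕ)
    (hm : ∀ c : Bl, {d : Bl | par c d}.ncard = m)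
    (G : Type) [CommGroup G] [MulAction G P] [MulAction G Bl]
    (ha : ∀ (g : G) (p : P) (c : Bl), I (g • p) (g • c) ↔ I p c)
    (htr : ∀ p q : P, ∃ g : G, g • p = q) :
    IsPrimePow m ∧ (∃ n : ℕ, 2 ≤ n ∧ Nat.card P = m ^ n) ∧ Embeddable I :=
  main_abelian I par k lam μ hA m hm G ha htr

end Pool.Agent.Results.MP_c0e0de_co.AbelianTransitive
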