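import Pool.Agent.Lib.MP_c0e0de_co.AF.Main3

/-!
# Affine designs with homotheties

`N` is the number of homotheties with centre `x`: automorphisms which fix every block through `x`
(the identity is counted).  If `2 N > m - 1`, or if `m - 1` is a prime and `N > 1`, then the design
is embeddable.
-/

namespace Pool.Agent.Results.MP_c0e0de_co.Homotheties

open Pool.Agent.AF

theorem result {P Bl : Type} [Finite P] [Finite Bl] (I : P → Bl → Prop)
    (par : Bl → Bl → Prop) (k lam μ : ℕ) (hA : IsAffine I par k lam μ) (m : ℕ)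
    (hm : ∀ c : Bl, {d : Bl | par c d}.ncard = m) (x : P) (N : ℕ)
    (hN : {σ : Equiv.Perm P | ∃ τ : Equiv.Perm Bl, (∀ p c, I (σ p) (τ c) ↔ I p c) ∧
      ∀ c, I x c → τ c = c}.ncard = N)
    (hh : m - 1 < 2 * N ∨ ((m - 1).Prime ∧ 1 < N)) : Embeddable I :=
  main_hom I par k lam μ hA m hm x N hN hh

end Pool.Agent.Results.MP_c0e0de_co.Homotheties
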