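import Pool.Agent.Lib.MP_c0e0de_co.AF.Main3

/-!
# Affine designs with `m = p ^ a` and a large automorphism group

`G` is transitive on the points and is nilpotent or has a normal series whose factors have cyclic
Sylow `q`-subgroups for all primes `q ≠ p`; or `G` is semiregular on the points with at most
`m + p - 2` orbits.  Then the number of points is a power of `m`, and the design is embeddable.
-/

namespace Pool.Agent.Results.MP_c0e0de_co.TransitiveOrSemiregular

open Pool.Agent.AF

theorem result {P Bl : Type} [Finite P] [Finite Bl] (I : P → Bl → Prop)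
    (par : Bl → Bl → Prop) (k lam μ : ℕ) (hA : IsAffine I par k lam μ) (m : ℕ)
    (hm : ∀ c : Bl, {d : Bl | par c d}.ncard = m)
    (G : Type) [Group G] [Finite G] [MulAction G P] [MulAction G Bl]
    (ha : ∀ (g : G) (p : P) (c : Bl), I (g • p) (g • c) ↔ I p c)
    (p a : ℕ) (hp : p.Prime) (hpm : m = p ^ a) (hm3 : 3 ≤ m)
    (hG : ((∀ x y : P, ∃ g : G, g • x = y) ∧ (Group.IsNilpotent G ∨ HasCyclicSeries p G)) ∨
      ((∀ (g : G) (x : P), g • x = x → g = 1) ∧
        Nat.card (MulAction.orbitRel.Quotient G P) + 2 ≤ m + p)) :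
    (∃ n : ℕ, 2 ≤ n ∧ Nat.card P = m ^ n) ∧ Embeddable I :=
  main_orbits I par k lam μ hA m hm G ha p a hp hpm hm3 hG

end Pool.Agent.Results.MP_c0e0de_co.TransitiveOrSemiregular
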